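import Mathlib

set_option autoImplicit false

open scoped Topology Pointwise

namespace Pool.Agent.LibSGR

universe u

/-- The number of distinct rows of the matrix `z` restricted to `F × F`. -/
def rows {G : Type u} (F : Finset G) (z : G → G → ZMod 2) : ℕ :=
  (F.image (fun x => fun y : F => z x (y : G))).card

lemma rows_congr {G : Type u} {F : Finset G} {z z' : G → G → ZMod 2}
    (hz : ∀ x ∈ F, ∀ y ∈ F, z x y = z' x y) : rows F z = rows F z' := by
  unfold rows
  congr 1
  apply Finset.image_congr
  intro x hx
  funext y
  exact hz x (by simpa using hx) y y.2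

lemma rows_add {G : Type u} (F : Finset G) (z z' : G → G → ZMod 2) :
    rows F (fun x y => z x y + z' x y) ≤ rows F z * rows F z' := by
  unfold rows
  refine le_trans (Finset.card_le_card ?_) (Finset.card_image₂_le (· + ·) _ _)
  intro f hf
  rw [Finset.mem_image] at hf
  obtain ⟨x, hx, rfl⟩ := hf
  rw [Finset.mem_image₂]
  exact ⟨_, Finset.mem_image_of_mem _ hx, _, Finset.mem_image_of_mem _ hx, rfl⟩

lemma rows_le_one_of_zero {G : Type u} (F : Finset G) (z : G → G → ZMod 2)
    (hz : ∀ x ∈ F, ∀ y ∈ F, z x y = 0) : rows F z ≤ 1 := by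
  unfold rows
  rw [Finset.card_le_one]
  intro a ha b hb
  rw [Finset.mem_image] at ha hb
  obtain ⟨x, hx, rfl⟩ := ha
  obtain ⟨x', hx', rfl⟩ := hb
  funext y
  rw [hz x hx y y.2, hz x' hx' y y.2]

lemma zmod2_cases (c : ZMod 2) : c = 0 ∨ c = 1 := by
  revert c; decide

lemma rows_outer {G : Type u} (F : Finset G) (v w : G → ZMod 2) (e : ℕ)
    (he : w ≠ 0 → 1 ≤ e) : rows F (fun x y => v x * w y) ≤ 2 ^ e := by
  by_cases hw : w = 0
  · subst hw
    refine (rows_le_one_of_zero F _ (by simp)).trans Nat.one_le_two_pow
  · have h1 := he hw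
    have : rows F (fun x y => v x * w y) ≤ 2 := by
      unfold rows
      have : F.image (fun x => fun y : F => v x * w (y : G)) ⊆
          {(fun _ : F => (0 : ZMod 2)), (fun y : F => w (y : G))} := by
        intro f hf
        rw [Finset.mem_image] at hf
        obtain ⟨x, hx, rfl⟩ := hf
        rcases zmod2_cases (v x) with h | h <;> simp [h]
      exact (Finset.card_le_card this).trans Finset.card_le_two
    refine this.trans ?_
    calc 2 = 2 ^ 1 := by norm_num
      _ ≤ 2 ^ e := Nat.pow_le_pow_right (by norm_num) h1

lemma rows_outer' {G : Type u} (F : Finset G) (v w : G → ZMod 2) (e : ℕ)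
    (he : v ≠ 0 → 1 ≤ e) : rows F (fun x y => v x * w y) ≤ 2 ^ e := by
  by_cases hv : v = 0
  · subst hv
    refine (rows_le_one_of_zero F _ (by simp)).trans Nat.one_le_two_pow
  · by_cases hw : w = 0
    · subst hw
      refine (rows_le_one_of_zero F _ (by simp)).trans Nat.one_le_two_pow
    · exact rows_outer F v w e (fun _ => he hv)

lemma rows_mono {G : Type u} {F F' : Finset G} (hF : F ⊆ F') (z : G → G → ZMod 2) :
    rows F z ≤ rows F' z := by
  unfold rows
  have : F.image (fun x => fun y : F => z x (y : G)) ⊆
      (F'.image (fun x => fun y : F' => z x (y : G))).image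
        (fun f => fun y : F => f ⟨y, hF y.2⟩) := by
    intro f hf
    rw [Finset.mem_image] at hf
    obtain ⟨x, hx, rfl⟩ := hf
    rw [Finset.mem_image]
    exact ⟨_, Finset.mem_image_of_mem _ (hF hx), rfl⟩
  exact (Finset.card_le_card this).trans Finset.card_image_le

/-- If the matrices `l (x y)` have at most `N` distinct rows on every finite set,
then there are at most finitely many functions `l (x ·)`. -/
lemma finite_range_of_rows {G : Type u} [Monoid G] (l : G → ZMod 2) (N : ℕ)
    (hl : ∀ F : Finset G, rows F (fun x y => l (x * y)) ≤ N) :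
    (Set.range (fun x : G => fun y : G => l (x * y))).Finite := by
  classical
  by_contra hinf
  have hinf' : (Set.range (fun x : G => fun y : G => l (x * y))).Infinite := hinf
  obtain ⟨S, hS, hScard⟩ := hinf'.exists_subset_card_eq (N + 1)
  -- choose preimages
  have hpre : ∀ f ∈ S, ∃ x : G, (fun y : G => l (x * y)) = f := fun f hf => by
    simpa using hS hf
  choose! pre hpre using hpre
  -- separating points
  have hsep : ∀ f f' : G → ZMod 2, f ≠ f' → ∃ y, f y ≠ f' y := fun f f' hne =>
    Function.ne_iff.mp hne
  choose! sep hsep using hsep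
  let F : Finset G := S.image pre ∪ (S ×ˢ S).image (fun p => sep p.1 p.2)
  have hle := hl F
  have : N + 1 ≤ rows F (fun x y => l (x * y)) := by
    unfold rows
    rw [← hScard]
    refine Finset.card_le_card_of_injOn (fun f => fun y : F => f (y : G)) ?_ ?_
    · intro f hf
      rw [Finset.mem_coe] at hf
      rw [Finset.mem_coe, Finset.mem_image]
      refine ⟨pre f, Finset.mem_union_left _ (Finset.mem_image_of_mem _ hf), ?_⟩
      funext y
      exact congrFun (hpre f hf) y
    · intro f hf f' hf' hff
      by_contra hne
      have hy : sep f f' ∈ F := Finset.mem_union_right _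
        (Finset.mem_image.mpr ⟨(f, f'), Finset.mem_product.mpr ⟨by simpa using hf, by simpa using hf'⟩, rfl⟩)
      exact hsep f f' hne (congrFun hff ⟨sep f f', hy⟩)
  omega

/-- If there are only finitely many functions `l (x ·)` then `l` factors through a finite-index
congruence. -/
lemma exists_con_of_finite_range {G : Type u} [Monoid G] (l : G → ZMod 2)
    (hfin : (Set.range (fun x : G => fun y : G => l (x * y))).Finite) :
    ∃ c : Con G, Finite c.Quotient ∧ ∀ g h, c g h → l g = l h := by
  classical
  let Ω : Set (G → ZMod 2) := Set.range (fun x : G => fun y : G => l (x * y))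
  have hΩ : Finite Ω := hfin
  let act : G → Ω → Ω := fun b f => ⟨fun y => f.1 (b * y), by
    obtain ⟨x, hx⟩ := f.2
    refine ⟨x * b, ?_⟩
    funext y
    have := congrFun hx (b * y)
    simp only at this ⊢
    rw [← this, mul_assoc]⟩
  let φ : G →* (Function.End Ω)ᵐᵒᵖ :=
    { toFun := fun b => MulOpposite.op (act b)
      map_one' := by
        apply MulOpposite.unop_injective
        funext f
        apply Subtype.ext
        funext y
        change f.1 (1 * y) = f.1 y
        rw [one_mul]
      map_mul' := fun b b' => by
        apply MulOpposite.unop_injective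
        funext f
        apply Subtype.ext
        funext y
        change f.1 (b * b' * y) = f.1 (b * (b' * y))
        rw [mul_assoc] }
  have hE : Finite (Function.End Ω) := by
    change Finite (Ω → Ω)
    infer_instance
  have hE' : Finite (Function.End Ω)ᵐᵒᵖ := Finite.of_equiv _ MulOpposite.opEquiv
  refine ⟨Con.ker φ, ?_, ?_⟩
  · exact Finite.of_injective _ (Con.kerLift_injective φ)
  · intro g h hgh
    have h1 : φ g = φ h := hgh
    have h2 := congrArg MulOpposite.unop h1
    have h3 := congrFun h2 ⟨fun y => l (1 * y), ⟨1, rfl⟩⟩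
    have h4 := congrFun (congrArg Subtype.val h3) 1
    change l (1 * (g * 1)) = l (1 * (h * 1)) at h4
    simpa using h4

/-- Key compactness lemma. -/
lemma exists_finset_rows {G : Type u} [Monoid G] (g h : G)
    (hsep : ∀ c : Con G, Finite c.Quotient → c g h) (N : ℕ) :
    ∃ F : Finset G, ∀ l : G → ZMod 2, l g ≠ l h → N < rows F (fun x y => l (x * y)) := by
  classical
  by_contra hcon
  push Not at hcon
  let bad : Finset G → Set (G → ZMod 2) := fun F =>
    {l | l g ≠ l h ∧ rows F (fun x y => l (x * y)) ≤ N}
  have hne : ∀ F, (bad F).Nonempty := fun F => by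
    obtain ⟨l, hl, hl'⟩ := hcon F
    exact ⟨l, hl, hl'⟩
  have hclosed : ∀ F, IsClosed (bad F) := by
    intro F
    -- bad F depends on finitely many coordinates
    let C : Finset G := {g, h} ∪ (F ×ˢ F).image (fun p => p.1 * p.2)
    let res : (G → ZMod 2) → (C → ZMod 2) := fun l y => l y
    have hres : Continuous res := by
      refine continuous_pi (fun y => continuous_apply _)
    have : bad F = res ⁻¹' (res '' (bad F)) := by
      apply Set.Subset.antisymm (Set.subset_preimage_image _ _)
      intro l hl
      obtain ⟨l', hl', hll⟩ := hl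
      have hco : ∀ y ∈ C, l' y = l y := fun y hy => congrFun hll ⟨y, hy⟩
      refine ⟨?_, ?_⟩
      · rw [← hco g (by simp [C]), ← hco h (by simp [C])]
        exact hl'.1
      · rw [rows_congr (z' := fun x y => l' (x * y))]
        · exact hl'.2
        · intro x hx y hy
          exact (hco _ (Finset.mem_union_right _ (Finset.mem_image.mpr
            ⟨(x, y), Finset.mem_product.mpr ⟨hx, hy⟩, rfl⟩))).symm
    rw [this]
    exact (isClosed_discrete _).preimage hres
  have hdir : Directed (fun a b => b ⊆ a) bad := by
    intro F F'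
    refine ⟨F ∪ F', ?_, ?_⟩
    · intro l hl
      exact ⟨hl.1, (rows_mono Finset.subset_union_left _).trans hl.2⟩
    · intro l hl
      exact ⟨hl.1, (rows_mono Finset.subset_union_right _).trans hl.2⟩
  have hcomp : ∀ F, IsCompact (bad F) := fun F => (hclosed F).isCompact
  obtain ⟨l, hl⟩ := IsCompact.nonempty_iInter_of_directed_nonempty_isCompact_isClosed bad
    hdir hne hcomp hclosed
  rw [Set.mem_iInter] at hl
  obtain ⟨c, hc, hc'⟩ := exists_con_of_finite_range l
    (finite_range_of_rows l N (fun F => (hl F).2))
  exact (hl ∅).1 (hc' g h (hsep c hc))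

end Pool.Agent.LibSGR
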