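import Pool.Agent.LibSGR.Ring

set_option autoImplicit false
set_option linter.unusedSectionVars false

open scoped Topology Pointwise

open Filter

namespace Pool.Agent.LibSGR

universe u

section elements

variable {G : Type u} [Monoid G] (F : ℕ → Finset G) (g h : G)

open Classical in
/-- element with only a `v` component -/
noncomputable def rE (a : ℕ × ℕ) (x : G) : R0 G :=
  ⟨0, Pi.single a (Pi.single x 1), 0, 0, 0, 0, 0, ⟨0, by simp⟩⟩

open Classical in
/-- element with only a `w` component -/
noncomputable def uE (a : ℕ × ℕ) (x : G) : R0 G :=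
  ⟨0, 0, Pi.single a (Pi.single x 1), 0, 0, 0, 0, ⟨0, by simp⟩⟩

open Classical in
/-- element with only an `s` component -/
noncomputable def sE (a : ℕ × ℕ) : R0 G :=
  ⟨0, 0, 0, Pi.single a 1, 0, 0, 0, ⟨a.2 + 1, fun b hb => by
    refine ⟨?_, rfl, rfl⟩
    apply Pi.single_eq_of_ne
    rintro rfl
    omega⟩⟩

open Classical in
/-- element with only a `z` component -/
noncomputable def ZE (a : ℕ × ℕ) (m : G → G → ZMod 2) : R0 G :=
  ⟨0, 0, 0, 0, 0, 0, Pi.single a m, ⟨0, by simp⟩⟩

lemma ZE_add (a : ℕ × ℕ) (m m' : G → G → ZMod 2) : ZE a (m + m') = ZE a m + ZE a m' := by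
  ext b t t'
  all_goals simp [ZE, Pi.single_add]

/-- `ZE a` as an additive map -/
noncomputable def ZEhom (a : ℕ × ℕ) : (G → G → ZMod 2) →+ R0 G :=
  AddMonoidHom.mk' (ZE a) (ZE_add a)

open Classical in
lemma rsu (a : ℕ × ℕ) (x y : G) :
    rE a x * sE a * uE a y = ZE a (fun t t' => if t = x ∧ t' = y then 1 else 0) := by
  ext b t t'
  all_goals try simp [rE, sE, uE, ZE]
  by_cases hb : b = a
  · subst hb
    by_cases ht : t = x
    · subst ht
      by_cases ht' : t' = y
      · subst ht'; simp
      · simp [ht']
    · simp [ht]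
  · simp [hb]

lemma rE_mem (N M m : ℕ) (hm : N ≤ m) (x : G) : rE (M, m) x ∈ U F g h N := by
  refine ⟨rfl, fun a ha => ⟨?_, rfl⟩, 0, 0, ?_, defect_zero g h, fun a => ⟨by simp [rE], ?_⟩⟩
  · apply Pi.single_eq_of_ne
    rintro rfl
    simp only at ha
    omega
  · rw [cost_zero]; positivity
  · refine (rows_le_one_of_zero _ _ (by simp [rE])).trans (by simp)

lemma uE_mem (N M m : ℕ) (hm : N ≤ m) (x : G) : uE (M, m) x ∈ U F g h N := by
  refine ⟨rfl, fun a ha => ⟨rfl, ?_⟩, 0, 0, ?_, defect_zero g h, fun a => ⟨by simp [uE], ?_⟩⟩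
  · apply Pi.single_eq_of_ne
    rintro rfl
    simp only at ha
    omega
  · rw [cost_zero]; positivity
  · refine (rows_le_one_of_zero _ _ (by simp [uE])).trans (by simp)

lemma sE_mem (N M m : ℕ) (hM : 2 ^ N ≤ M) : (sE (M, m) : R0 G) ∈ U F g h N := by
  classical
  refine ⟨rfl, fun a ha => ⟨rfl, rfl⟩, Finsupp.single (M, m) 1, 0, ?_, defect_zero g h,
    fun a => ⟨?_, ?_⟩⟩
  · unfold cost
    rw [Finsupp.sum_single_index (by simp)]
    rw [one_div_pow]
    push_cast
    have : ((2 : ℝ) ^ N) ≤ M := by exact_mod_cast hM
    apply one_div_le_one_div_of_le (by positivity)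
    linarith
  · intro hne
    by_cases ha : a = (M, m)
    · subst ha; simp
    · exfalso
      simp [sE, ha] at hne
  · refine (rows_le_one_of_zero _ _ (by simp [sE])).trans Nat.one_le_two_pow

open Classical in
/-- the key membership: these elements are in every basic neighbourhood -/
lemma key_mem (a : ℕ × ℕ) (w : G) (ε : ZMod 2) (hgh : g ≠ h)
    (hε : (if g = w then (1 : ZMod 2) else 0) + (if h = w then 1 else 0) + ε = 0) (N : ℕ) :
    ZE a (fun t t' => if t ∈ F a.1 ∧ t' ∈ F a.1 ∧ t * t' = w then 1 else 0) +
      ZE (0, 0) (fun t t' => if t * t' = g then ε else 0) ∈ U F g h N := by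
  refine ⟨by simp [ZE], fun b hb => ⟨by simp [ZE], by simp [ZE]⟩, 0,
    Finsupp.single a (fun t => if t = w then 1 else 0) +
      Finsupp.single (0, 0) (fun t => if t = g then ε else 0), ?_, ?_, fun b => ⟨by simp [ZE], ?_⟩⟩
  · rw [cost_zero]; positivity
  · rw [defect_add, defect_single, defect_single]
    simp only [if_true, if_neg hgh.symm, add_zero]
    exact hε
  · refine (rows_le_one_of_zero _ _ ?_).trans (by simp)
    intro x hx y hy
    have h1 : ∀ c : ZMod 2, c + c = 0 := R0.zmod2_add_self
    have e1 : (ZE a (fun t t' => if t ∈ F a.1 ∧ t' ∈ F a.1 ∧ t * t' = w then 1 else 0) : R0 G).z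
        b x y = (Finsupp.single a (fun t => if t = w then (1 : ZMod 2) else 0) b) (x * y) := by
      by_cases hb : b = a
      · subst hb
        simp [ZE, hx, hy]
      · rw [Finsupp.single_apply, if_neg (Ne.symm hb)]
        simp [ZE, hb]
    have e2 : (ZE (0, 0) (fun t t' => if t * t' = g then ε else 0) : R0 G).z
        b x y = (Finsupp.single ((0, 0) : ℕ × ℕ) (fun t => if t = g then ε else 0) b) (x * y) := by
      by_cases hb : b = (0, 0)
      · subst hb
        simp [ZE]
      · rw [Finsupp.single_apply, if_neg (Ne.symm hb)]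
        simp [ZE, hb]
    rw [R0.add_z, Finsupp.add_apply]
    simp only [Pi.add_apply]
    rw [e1, e2]
    exact h1 _

open Classical in
/-- the element `T` is not in a small neighbourhood -/
lemma T_not_mem (hF : ∀ M, ∀ l : G → ZMod 2, l g ≠ l h → 2 ^ M < rows (F M) (fun x y => l (x * y)))
    (hgh : g ≠ h) : (ZE (0, 0) (fun t t' => if t * t' = g then 1 else 0) : R0 G) ∉ U F g h 1 := by
  rintro ⟨_, _, e, l, h3, h4, h5⟩
  -- the total functional
  set L : (ℕ × ℕ) →₀ (G → ZMod 2) := Finsupp.single (0, 0) (fun t => if t = g then 1 else 0) + l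
    with hL
  have hdef : defect g h L = 1 := by
    rw [hL, defect_add, defect_single, h4]
    simp [hgh.symm]
  have hex : ∃ b, L b g + L b h ≠ 0 := by
    by_contra hcon
    push Not at hcon
    have : defect g h L = 0 := by
      unfold defect
      exact Finset.sum_eq_zero (fun b _ => hcon b)
    rw [this] at hdef
    exact zero_ne_one hdef
  obtain ⟨b, hb⟩ := hex
  have hne : L b g ≠ L b h := by
    intro heq
    apply hb
    rw [heq]
    exact R0.zmod2_add_self _
  have h6 := hF b.1 (L b) hne
  have h7 : rows (F b.1) (fun x y => (L b) (x * y)) ≤ 2 ^ e b := by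
    refine le_trans (le_of_eq ?_) (h5 b).2
    congr 1
    funext x y
    rw [hL, Finsupp.add_apply]
    simp only [Pi.add_apply]
    congr 1
    by_cases hb0 : b = (0, 0)
    · subst hb0
      simp [ZE]
    · rw [Finsupp.single_apply, if_neg (Ne.symm hb0)]
      simp [ZE, hb0]
  have h8 : b.1 < e b := (Nat.pow_lt_pow_iff_right (by norm_num)).mp (lt_of_lt_of_le h6 h7)
  have h9 : (1 : ℝ) ≤ cost e := by
    unfold cost
    have hbs : b ∈ e.support := by
      rw [Finsupp.mem_support_iff]; omega
    have h10 : (1 : ℝ) ≤ (e b : ℝ) / ((b.1 : ℝ) + 1) := by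
      rw [le_div_iff₀ (by positivity)]
      have : ((b.1 + 1 : ℕ) : ℝ) ≤ (e b : ℝ) := by exact_mod_cast h8
      push_cast at this
      linarith
    refine h10.trans ?_
    exact Finset.single_le_sum (f := fun a => ((e a : ℝ) / ((a.1 : ℝ) + 1)))
      (fun i _ => by positivity) hbs
  norm_num at h3
  linarith

end elements

/-- Main negative result: if `g ≠ h` are not separated by finite quotients of the monoid `G`, then
some Hausdorff topological ring has no Hausdorff ring topology on its semigroup ring over `G`
making the canonical embedding continuous. -/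
theorem exists_ring_of_not_separated {G : Type u} [Monoid G] (g h : G) (hgh : g ≠ h)
    (hsep : ∀ c : Con G, Finite c.Quotient → c g h) :
    ∃ (R : Type u) (_ : Ring R) (_ : TopologicalSpace R) (_ : IsTopologicalRing R)
      (_ : T2Space R), ∀ τ : TopologicalSpace (MonoidAlgebra R G),
        IsTopologicalRing (MonoidAlgebra R G) → T2Space (MonoidAlgebra R G) →
          ¬ Continuous (fun r : R => MonoidAlgebra.single (1 : G) r) := by
  classical
  choose F hF using fun M : ℕ => exists_finset_rows g h hsep (2 ^ M)
  let _ : TopologicalSpace (R0 G) := (fb F g h).topology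
  have _ : IsTopologicalRing (R0 G) := (fb F g h).isTopologicalRing
  have hbasis : (𝓝 (0 : R0 G)).HasBasis (fun _ : ℕ => True) (U F g h) := by
    have hb := (fb F g h).toAddGroupFilterBasis.nhds_zero_hasBasis
    refine ⟨fun t => ?_⟩
    rw [hb.mem_iff]
    constructor
    · rintro ⟨_, ⟨N, rfl⟩, hN⟩
      exact ⟨N, trivial, hN⟩
    · rintro ⟨N, _, hN⟩
      exact ⟨_, ⟨N, rfl⟩, hN⟩
  let f : R0 G →+* SeparationQuotient (R0 G) := SeparationQuotient.mkRingHom
  have hfc : Continuous f := SeparationQuotient.continuous_mk
  have hf0 : ∀ x : R0 G, f x = 0 ↔ ∀ N, x ∈ U F g h N := by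
    intro x
    have : f x = 0 ↔ Inseparable x 0 := by
      rw [← SeparationQuotient.mk_eq_mk]; rfl
    rw [this, ← specializes_iff_inseparable, specializes_iff_pure, hbasis.ge_iff]
    simp
  refine ⟨SeparationQuotient (R0 G), inferInstance, inferInstance, inferInstance, inferInstance,
    ?_⟩
  intro τ hring hT2 hcont
  set T : R0 G := ZE (0, 0) (fun t t' => if t * t' = g then 1 else 0) with hT
  have hT0 : f T ≠ 0 := fun h0 => T_not_mem F g h hF hgh ((hf0 T).1 h0 1)
  have hsingle : ∀ x : G, Continuous (fun r : R0 G => MonoidAlgebra.single x (f r)) := by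
    intro x
    have : (fun r : R0 G => MonoidAlgebra.single x (f r)) =
        fun r : R0 G => MonoidAlgebra.single (1 : G) (f r) * MonoidAlgebra.single x 1 := by
      funext r
      rw [MonoidAlgebra.single_mul_single, one_mul, mul_one]
    rw [this]
    exact (hcont.comp hfc).mul continuous_const
  -- the product computation
  have hprod : ∀ a : ℕ × ℕ,
      (∑ x ∈ F a.1, MonoidAlgebra.single x (f (rE a x))) *
        MonoidAlgebra.single (1 : G) (f (sE a)) *
        (∑ y ∈ F a.1, MonoidAlgebra.single y (f (uE a y))) =
      MonoidAlgebra.single g (f T) + MonoidAlgebra.single h (f T) := by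
    intro a
    rw [Finset.sum_mul, Finset.sum_mul_sum]
    have e1 : ∀ x y : G, MonoidAlgebra.single x (f (rE a x)) *
        MonoidAlgebra.single (1 : G) (f (sE a)) * MonoidAlgebra.single y (f (uE a y)) =
        MonoidAlgebra.single (x * y) (f (ZE a (fun t t' => if t = x ∧ t' = y then 1 else 0))) := by
      intro x y
      rw [MonoidAlgebra.single_mul_single, MonoidAlgebra.single_mul_single, mul_one, ← map_mul,
        ← map_mul, rsu]
    simp only [e1]
    apply MonoidAlgebra.ext
    ext w
    rw [MonoidAlgebra.coeff_sum]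
    simp only [MonoidAlgebra.coeff_sum, MonoidAlgebra.coeff_single, MonoidAlgebra.coeff_add,
      Finsupp.coe_finsetSum, Finset.sum_apply, Finsupp.add_apply, Finsupp.single_apply]
    have e2 : (∑ x ∈ F a.1, ∑ y ∈ F a.1, if x * y = w then
        f (ZE a (fun t t' => if t = x ∧ t' = y then 1 else 0)) else 0) =
        f (ZE a (fun t t' => if t ∈ F a.1 ∧ t' ∈ F a.1 ∧ t * t' = w then 1 else 0)) := by
      have e3 : (fun t t' => if t ∈ F a.1 ∧ t' ∈ F a.1 ∧ t * t' = w then (1 : ZMod 2) else 0) =
          ∑ x ∈ F a.1, ∑ y ∈ F a.1, if x * y = w then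
            (fun t t' => if t = x ∧ t' = y then (1 : ZMod 2) else 0) else 0 := by
        funext t t'
        simp only [Finset.sum_apply]
        by_cases ht : t ∈ F a.1
        · by_cases ht' : t' ∈ F a.1
          · rw [Finset.sum_eq_single t, Finset.sum_eq_single t']
            · by_cases hw : t * t' = w
              · simp [ht, ht', hw]
              · simp [hw]
            · intro y _ hy
              split_ifs
              · simp [Ne.symm hy]
              · rfl
            · intro hcon; exact absurd ht' hcon
            · intro x _ hx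
              apply Finset.sum_eq_zero
              intro y _
              split_ifs
              · simp [Ne.symm hx]
              · rfl
            · intro hcon; exact absurd ht hcon
          · rw [if_neg (by tauto)]
            symm
            apply Finset.sum_eq_zero
            intro x _
            apply Finset.sum_eq_zero
            intro y hy
            have : t' ≠ y := fun h => ht' (h ▸ hy)
            split_ifs
            · simp [this]
            · rfl
        · rw [if_neg (by tauto)]
          symm
          apply Finset.sum_eq_zero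
          intro x hx
          apply Finset.sum_eq_zero
          intro y _
          have : t ≠ x := fun h => ht (h ▸ hx)
          split_ifs
          · simp [this]
          · rfl
      rw [e3]
      have e4 : ∀ m : G → G → ZMod 2, f (ZE a m) = (f.toAddMonoidHom.comp (ZEhom a)) m :=
        fun m => rfl
      rw [e4, map_sum]
      apply Finset.sum_congr rfl
      intro x _
      rw [map_sum]
      apply Finset.sum_congr rfl
      intro y _
      split_ifs
      · rfl
      · rw [map_zero]
    rw [e2]
    have hneg : ∀ x y : SeparationQuotient (R0 G), x + y = 0 → y + y = 0 → x = y := by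
      intro x y h1 h2
      have := h1.trans h2.symm
      exact add_right_cancel this
    have hTT : f T + f T = 0 := by
      rw [← map_add]
      have : T + T = 0 := by
        ext <;> simp [R0.zmod2_add_self]
      rw [this, map_zero]
    by_cases hwg : g = w
    · subst hwg
      rw [if_pos rfl, if_neg hgh.symm, add_zero]
      apply hneg _ _ _ hTT
      rw [hT, ← map_add, hf0]
      exact key_mem F g h a g 1 hgh (by simp [hgh.symm]; decide)
    · by_cases hwh : h = w
      · subst hwh
        rw [if_neg hwg, if_pos rfl, zero_add]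
        apply hneg _ _ _ hTT
        rw [hT, ← map_add, hf0]
        exact key_mem F g h a h 1 hgh (by simp [hgh]; decide)
      · rw [if_neg hwg, if_neg hwh, add_zero, hf0]
        intro N
        have := key_mem F g h a w 0 hgh (by simp [hwg, hwh]) N
        have hz : (ZE (0, 0) (fun t t' => if t * t' = g then (0 : ZMod 2) else 0) : R0 G) = 0 := by
          have : (fun t t' : G => if t * t' = g then (0 : ZMod 2) else 0) = 0 := by
            funext t t'; simp
          rw [this]
          exact (ZEhom (0, 0)).map_zero
        rwa [hz, add_zero] at this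
  -- the element is in every neighbourhood
  have hmem : ∀ V ∈ 𝓝 (0 : MonoidAlgebra (SeparationQuotient (R0 G)) G),
      MonoidAlgebra.single g (f T) + MonoidAlgebra.single h (f T) ∈ V := by
    intro V hV
    have hmul : Tendsto (fun p : MonoidAlgebra (SeparationQuotient (R0 G)) G ×
        MonoidAlgebra (SeparationQuotient (R0 G)) G => p.1 * p.2) (𝓝 0 ×ˢ 𝓝 0) (𝓝 0) := by
      have := (continuous_mul (M := MonoidAlgebra (SeparationQuotient (R0 G)) G)).tendsto (0, 0)
      rwa [nhds_prod_eq, mul_zero] at this
    obtain ⟨W1, hW1, hW1'⟩ := Filter.mem_prod_same_iff.mp (hmul hV)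
    obtain ⟨W2, hW2, hW2'⟩ := Filter.mem_prod_same_iff.mp (hmul hW1)
    have hs : Tendsto (fun r : R0 G => MonoidAlgebra.single (1 : G) (f r)) (𝓝 0) (𝓝 0) := by
      have := (hsingle 1).tendsto 0
      rwa [map_zero, MonoidAlgebra.single_zero] at this
    obtain ⟨N, _, hN⟩ := hbasis.mem_iff.mp (hs hW2)
    have hr : Tendsto (fun m : ℕ => ∑ x ∈ F (2 ^ N), MonoidAlgebra.single x (f (rE (2 ^ N, m) x)))
        atTop (𝓝 0) := by
      have : (0 : MonoidAlgebra (SeparationQuotient (R0 G)) G) = ∑ x ∈ F (2 ^ N), 0 := by simp
      rw [this]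
      apply tendsto_finsetSum
      intro x _
      have h1 : Tendsto (fun r : R0 G => MonoidAlgebra.single x (f r)) (𝓝 0) (𝓝 0) := by
        have := (hsingle x).tendsto 0
        rwa [map_zero, MonoidAlgebra.single_zero] at this
      have h2 : Tendsto (fun m : ℕ => rE (2 ^ N, m) x) atTop (𝓝 (0 : R0 G)) := by
        rw [hbasis.tendsto_right_iff]
        intro N' _
        filter_upwards [eventually_ge_atTop N'] with m hm
        exact rE_mem F g h N' (2 ^ N) m hm x
      exact h1.comp h2
    have hu : Tendsto (fun m : ℕ => ∑ x ∈ F (2 ^ N), MonoidAlgebra.single x (f (uE (2 ^ N, m) x)))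
        atTop (𝓝 0) := by
      have : (0 : MonoidAlgebra (SeparationQuotient (R0 G)) G) = ∑ x ∈ F (2 ^ N), 0 := by simp
      rw [this]
      apply tendsto_finsetSum
      intro x _
      have h1 : Tendsto (fun r : R0 G => MonoidAlgebra.single x (f r)) (𝓝 0) (𝓝 0) := by
        have := (hsingle x).tendsto 0
        rwa [map_zero, MonoidAlgebra.single_zero] at this
      have h2 : Tendsto (fun m : ℕ => uE (2 ^ N, m) x) atTop (𝓝 (0 : R0 G)) := by
        rw [hbasis.tendsto_right_iff]
        intro N' _
        filter_upwards [eventually_ge_atTop N'] with m hm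
        exact uE_mem F g h N' (2 ^ N) m hm x
      exact h1.comp h2
    obtain ⟨m, hm1, hm2⟩ := ((hr.eventually_mem hW2).and (hu.eventually_mem hW1)).exists
    rw [← hprod (2 ^ N, m)]
    have hs' : MonoidAlgebra.single (1 : G) (f (sE (2 ^ N, m))) ∈ W2 :=
      hN (sE_mem F g h N (2 ^ N) m le_rfl)
    have h1 := hW2' (Set.mk_mem_prod hm1 hs')
    exact hW1' (Set.mk_mem_prod h1 hm2)
  have hzero : MonoidAlgebra.single g (f T) + MonoidAlgebra.single h (f T) = 0 := by
    apply Specializes.eq
    rw [specializes_iff_pure]
    intro V hV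
    exact hmem V hV
  have := congrArg (fun x => x.coeff g) hzero
  simp [hgh.symm] at this
  exact hT0 this

end Pool.Agent.LibSGR
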