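import Mathlib

set_option autoImplicit false

open scoped Topology

open Filter

namespace Pool.Agent.LibSGR

universe u v

section finite

variable (R : Type v) [Ring R] [TopologicalSpace R] (Q : Type u)

/-- coordinatewise topology on a monoid algebra -/
@[reducible] def coeffTop : TopologicalSpace (MonoidAlgebra R Q) :=
  TopologicalSpace.induced (fun (x : MonoidAlgebra R Q) (q : Q) => x.coeff q) inferInstance

lemma continuous_coeff (q : Q) : Continuous[coeffTop R Q, _]
    (fun x : MonoidAlgebra R Q => x.coeff q) := by
  let _ := coeffTop R Q
  exact (continuous_apply q).comp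
    (continuous_induced_dom (f := fun (x : MonoidAlgebra R Q) (q : Q) => x.coeff q))

lemma isTopologicalRing_coeffTop [IsTopologicalRing R] [Monoid Q] [Finite Q] :
    @IsTopologicalRing (MonoidAlgebra R Q) (coeffTop R Q) _ := by
  classical
  let _ := coeffTop R Q
  have _ := Fintype.ofFinite Q
  have hc := continuous_coeff R Q
  have hadd : ContinuousAdd (MonoidAlgebra R Q) := ⟨by
    rw [continuous_induced_rng, continuous_pi_iff]
    intro q
    exact ((hc q).comp continuous_fst).add ((hc q).comp continuous_snd)⟩
  have hneg : ContinuousNeg (MonoidAlgebra R Q) := ⟨by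
    rw [continuous_induced_rng, continuous_pi_iff]
    intro q
    exact (hc q).neg⟩
  have hmul : ContinuousMul (MonoidAlgebra R Q) := ⟨by
    rw [continuous_induced_rng, continuous_pi_iff]
    intro q
    have : (fun p : MonoidAlgebra R Q × MonoidAlgebra R Q => (p.1 * p.2).coeff q) =
        fun p => ∑ a : Q, ∑ b : Q, if a * b = q then p.1.coeff a * p.2.coeff b else 0 := by
      funext p
      rw [MonoidAlgebra.coeff_mul, Finsupp.sum_fintype _ _ (by simp)]
      apply Finset.sum_congr rfl
      intro a _
      rw [Finsupp.sum_fintype _ _ (by simp)]
    change Continuous (fun p : MonoidAlgebra R Q × MonoidAlgebra R Q => (p.1 * p.2).coeff q)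
    rw [this]
    refine continuous_finsetSum _ (fun a _ => continuous_finsetSum _ (fun b _ => ?_))
    split_ifs
    · exact ((hc a).comp continuous_fst).mul ((hc b).comp continuous_snd)
    · exact continuous_const⟩
  exact { }

end finite

/-- Positive result: over a residually finite monoid every Hausdorff ring topology extends. -/
theorem exists_extension_of_residuallyFinite {G : Type u} [Monoid G]
    (hG : ∀ g h : G, g ≠ h → ∃ c : Con G, Finite c.Quotient ∧ ¬ c g h)
    (R : Type v) [Ring R] [τ₀ : TopologicalSpace R] [IsTopologicalRing R] [T2Space R] :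
    ∃ τ : TopologicalSpace (MonoidAlgebra R G), IsTopologicalRing (MonoidAlgebra R G) ∧
      T2Space (MonoidAlgebra R G) ∧
      τ.induced (fun r : R => MonoidAlgebra.single (1 : G) r) = τ₀ := by
  classical
  let I := {c : Con G // Finite c.Quotient}
  let π : (c : I) → MonoidAlgebra R G →+* MonoidAlgebra R c.1.Quotient :=
    fun c => MonoidAlgebra.mapDomainRingHom R c.1.mk'
  let τc : I → TopologicalSpace (MonoidAlgebra R G) := fun c =>
    TopologicalSpace.induced (π c) (coeffTop R c.1.Quotient)
  have hring : ∀ c : I, @IsTopologicalRing (MonoidAlgebra R G) (τc c) _ := by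
    intro c
    have := c.2
    let _ := coeffTop R c.1.Quotient
    have h1 := isTopologicalRing_coeffTop R c.1.Quotient
    let _ := τc c
    have h2 : ContinuousMul (MonoidAlgebra R G) := continuousMul_induced (π c)
    have h3 : IsTopologicalAddGroup (MonoidAlgebra R G) := topologicalAddGroup_induced (π c)
    exact { }
  let τ : TopologicalSpace (MonoidAlgebra R G) := ⨅ c, τc c
  have hτ : IsTopologicalRing (MonoidAlgebra R G) := by
    have h2 : ContinuousMul (MonoidAlgebra R G) :=
      continuousMul_iInf (fun c => (hring c).toIsTopologicalSemiring.toContinuousMul)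
    have h3 : IsTopologicalAddGroup (MonoidAlgebra R G) :=
      topologicalAddGroup_iInf (fun c => @IsTopologicalRing.to_topologicalAddGroup _ _ (τc c) (hring c))
    exact { }
  have hcoord : ∀ (c : I) (q : c.1.Quotient), Continuous (fun x : MonoidAlgebra R G =>
      (π c x).coeff q) := by
    intro c q
    refine continuous_iInf_dom (i := c) ?_
    let _ := τc c
    let _ := coeffTop R c.1.Quotient
    exact (continuous_coeff R c.1.Quotient q).comp continuous_induced_dom
  refine ⟨τ, hτ, ?_, ?_⟩
  · refine T2Space.of_injective_continuous (Y := (c : I) → c.1.Quotient → R)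
      (f := fun x c q => (π c x).coeff q) ?_ ?_
    · intro x y hxy
      -- it suffices to treat a difference
      rw [← sub_eq_zero]
      by_contra hne
      have hne' : (x - y).coeff ≠ 0 := fun h => hne (MonoidAlgebra.coeff_eq_zero.mp h)
      obtain ⟨m, hm⟩ := Finsupp.support_nonempty_iff.mpr hne'
      -- a finite index congruence separating the support
      choose! cc hcc hcc' using hG
      let S := (x - y).coeff.support
      let Q := (p : {p : S × S // p.1 ≠ p.2}) → (cc (p.1.1 : G) (p.1.2 : G)).Quotient
      have hQ : Finite Q := by
        have : ∀ p : {p : S × S // p.1 ≠ p.2},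
            Finite (cc (p.1.1 : G) (p.1.2 : G)).Quotient := fun p =>
          hcc _ _ (fun h => p.2 (Subtype.ext h))
        exact Pi.finite
      let φ : G →* Q := MonoidHom.pi (fun p => (cc (p.1.1 : G) (p.1.2 : G)).mk')
      let c : I := ⟨Con.ker φ, Finite.of_injective _ (Con.kerLift_injective φ)⟩
      have hc : ∀ s ∈ S, ∀ t ∈ S, c.1 s t → s = t := by
        intro s hs t ht hst
        by_contra hne
        have h1 : φ s = φ t := hst
        have h2 := congrFun h1 ⟨(⟨s, hs⟩, ⟨t, ht⟩), fun h => hne (congrArg Subtype.val h)⟩
        exact hcc' s t hne ((Con.eq _).mp h2)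
      have h1 := congrFun (congrFun hxy c) (m : c.1.Quotient)
      simp only at h1
      have h2 : (π c (x - y)).coeff (m : c.1.Quotient) = 0 := by
        rw [map_sub]
        change ((π c x).coeff - (π c y).coeff) _ = 0
        rw [Finsupp.sub_apply, h1, sub_self]
      have h3 : (π c (x - y)).coeff (m : c.1.Quotient) = (x - y).coeff m := by
        change (Finsupp.mapDomain (c.1.mk') (x - y).coeff) (c.1.mk' m) = _
        apply Finsupp.mapDomain_apply' (S := (S : Set G)) (x := (x - y).coeff) (f := c.1.mk')
          (by exact subset_rfl) ?_ hm
        intro s hs t ht hst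
        exact hc s hs t ht ((Con.eq _).mp hst)
      rw [h3] at h2
      exact (Finsupp.mem_support_iff.mp hm) h2
    · exact continuous_pi (fun c => continuous_pi (fun q => hcoord c q))
  · -- the induced topology
    symm
    let c : I := ⟨⊤, by
      have : Subsingleton (⊤ : Con G).Quotient := by
        constructor
        rintro ⟨a⟩ ⟨b⟩
        exact (Con.eq _).mpr trivial
      infer_instance⟩
    have hcomp : (fun x : MonoidAlgebra R G => (π c x).coeff (1 : c.1.Quotient)) ∘
        (fun r : R => MonoidAlgebra.single (1 : G) r) = id := by
      funext r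
      simp only [Function.comp_apply, id]
      change (MonoidAlgebra.mapDomain (c.1.mk') (MonoidAlgebra.single (1 : G) r)).coeff 1 = r
      have h1 : c.1.mk' (1 : G) = 1 := map_one _
      rw [MonoidAlgebra.mapDomain_single, h1, MonoidAlgebra.coeff_single,
        Finsupp.single_eq_same]
    have hcont : Continuous (fun r : R => MonoidAlgebra.single (1 : G) r) := by
      rw [continuous_iInf_rng]
      intro c
      rw [continuous_induced_rng, continuous_induced_rng, continuous_pi_iff]
      intro q
      have : (fun r : R => ((MonoidAlgebra.mapDomain (c.1.mk')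
          (MonoidAlgebra.single (1 : G) r)).coeff q)) =
          fun r => if (1 : c.1.Quotient) = q then r else 0 := by
        funext r
        have h1 : c.1.mk' (1 : G) = 1 := map_one _
        rw [MonoidAlgebra.mapDomain_single, h1, MonoidAlgebra.coeff_single,
          Finsupp.single_apply]
      change Continuous (fun r : R => ((MonoidAlgebra.mapDomain (c.1.mk')
          (MonoidAlgebra.single (1 : G) r)).coeff q))
      rw [this]
      split_ifs
      · exact continuous_id
      · exact continuous_const
    have hind : Topology.IsInducing (fun r : R => MonoidAlgebra.single (1 : G) r) := by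
      refine Topology.IsInducing.of_comp hcont (hcoord c 1) ?_
      rw [hcomp]
      exact Topology.IsInducing.id
    exact hind.eq_induced

end Pool.Agent.LibSGR
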