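import Pool.Agent.LibSGR.Basic

set_option autoImplicit false

open scoped Topology Pointwise

namespace Pool.Agent.LibSGR

universe u

/-- The underlying set of the ring used in the counterexample. -/
@[ext] structure R0 (G : Type u) where
  c : ZMod 2
  v : ℕ × ℕ → G → ZMod 2
  w : ℕ × ℕ → G → ZMod 2
  s : ℕ × ℕ → ZMod 2
  p : ℕ × ℕ → G → ZMod 2
  q : ℕ × ℕ → G → ZMod 2
  z : ℕ × ℕ → G → G → ZMod 2
  bdd : ∃ H : ℕ, ∀ a : ℕ × ℕ, H ≤ a.2 → s a = 0 ∧ p a = 0 ∧ q a = 0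

namespace R0

variable {G : Type u}

instance : Zero (R0 G) := ⟨⟨0, 0, 0, 0, 0, 0, 0, ⟨0, by simp⟩⟩⟩

instance : One (R0 G) := ⟨⟨1, 0, 0, 0, 0, 0, 0, ⟨0, by simp⟩⟩⟩

instance : Add (R0 G) := ⟨fun x y => ⟨x.c + y.c, x.v + y.v, x.w + y.w, x.s + y.s, x.p + y.p,
  x.q + y.q, x.z + y.z, by
    obtain ⟨H, hH⟩ := x.bdd
    obtain ⟨H', hH'⟩ := y.bdd
    refine ⟨max H H', fun a ha => ?_⟩
    obtain ⟨h1, h2, h3⟩ := hH a (le_trans (le_max_left _ _) ha)
    obtain ⟨h1', h2', h3'⟩ := hH' a (le_trans (le_max_right _ _) ha)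
    simp [h1, h2, h3, h1', h2', h3']⟩⟩

instance : Neg (R0 G) := ⟨fun x => x⟩

instance : Mul (R0 G) := ⟨fun x y => ⟨x.c * y.c,
  fun a g => x.c * y.v a g + x.v a g * y.c,
  fun a g => x.c * y.w a g + x.w a g * y.c,
  fun a => x.c * y.s a + x.s a * y.c,
  fun a g => x.c * y.p a g + x.p a g * y.c + x.v a g * y.s a,
  fun a g => x.c * y.q a g + x.q a g * y.c + x.s a * y.w a g,
  fun a g h => x.c * y.z a g h + x.z a g h * y.c + x.v a g * y.q a h + x.p a g * y.w a h, by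
    obtain ⟨H, hH⟩ := x.bdd
    obtain ⟨H', hH'⟩ := y.bdd
    refine ⟨max H H', fun a ha => ?_⟩
    obtain ⟨h1, h2, h3⟩ := hH a (le_trans (le_max_left _ _) ha)
    obtain ⟨h1', h2', h3'⟩ := hH' a (le_trans (le_max_right _ _) ha)
    refine ⟨by simp [h1, h1'], ?_, ?_⟩
    · funext g; simp [h2, h1', h2']
    · funext g; simp [h3, h1, h3']⟩⟩

@[simp] lemma zero_c : (0 : R0 G).c = 0 := rfl
@[simp] lemma zero_v : (0 : R0 G).v = 0 := rfl
@[simp] lemma zero_w : (0 : R0 G).w = 0 := rfl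
@[simp] lemma zero_s : (0 : R0 G).s = 0 := rfl
@[simp] lemma zero_p : (0 : R0 G).p = 0 := rfl
@[simp] lemma zero_q : (0 : R0 G).q = 0 := rfl
@[simp] lemma zero_z : (0 : R0 G).z = 0 := rfl
@[simp] lemma one_c : (1 : R0 G).c = 1 := rfl
@[simp] lemma one_v : (1 : R0 G).v = 0 := rfl
@[simp] lemma one_w : (1 : R0 G).w = 0 := rfl
@[simp] lemma one_s : (1 : R0 G).s = 0 := rfl
@[simp] lemma one_p : (1 : R0 G).p = 0 := rfl
@[simp] lemma one_q : (1 : R0 G).q = 0 := rfl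
@[simp] lemma one_z : (1 : R0 G).z = 0 := rfl
@[simp] lemma add_c (x y : R0 G) : (x + y).c = x.c + y.c := rfl
@[simp] lemma add_v (x y : R0 G) : (x + y).v = x.v + y.v := rfl
@[simp] lemma add_w (x y : R0 G) : (x + y).w = x.w + y.w := rfl
@[simp] lemma add_s (x y : R0 G) : (x + y).s = x.s + y.s := rfl
@[simp] lemma add_p (x y : R0 G) : (x + y).p = x.p + y.p := rfl
@[simp] lemma add_q (x y : R0 G) : (x + y).q = x.q + y.q := rfl
@[simp] lemma add_z (x y : R0 G) : (x + y).z = x.z + y.z := rfl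
lemma neg_eq' (x : R0 G) : -x = x := rfl
@[simp] lemma mul_c (x y : R0 G) : (x * y).c = x.c * y.c := rfl
@[simp] lemma mul_v (x y : R0 G) (a : ℕ × ℕ) (g : G) :
    (x * y).v a g = x.c * y.v a g + x.v a g * y.c := rfl
@[simp] lemma mul_w (x y : R0 G) (a : ℕ × ℕ) (g : G) :
    (x * y).w a g = x.c * y.w a g + x.w a g * y.c := rfl
@[simp] lemma mul_s (x y : R0 G) (a : ℕ × ℕ) :
    (x * y).s a = x.c * y.s a + x.s a * y.c := rfl
@[simp] lemma mul_p (x y : R0 G) (a : ℕ × ℕ) (g : G) :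
    (x * y).p a g = x.c * y.p a g + x.p a g * y.c + x.v a g * y.s a := rfl
@[simp] lemma mul_q (x y : R0 G) (a : ℕ × ℕ) (g : G) :
    (x * y).q a g = x.c * y.q a g + x.q a g * y.c + x.s a * y.w a g := rfl
@[simp] lemma mul_z (x y : R0 G) (a : ℕ × ℕ) (g h : G) :
    (x * y).z a g h =
      x.c * y.z a g h + x.z a g h * y.c + x.v a g * y.q a h + x.p a g * y.w a h := rfl

lemma zmod2_add_self (c : ZMod 2) : c + c = 0 := by
  revert c; decide

instance : Ring (R0 G) := Ring.ofMinimalAxioms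
  (fun x y z => by ext <;> simp [add_assoc])
  (fun x => by ext <;> simp)
  (fun x => by ext <;> simp [neg_eq', zmod2_add_self])
  (fun x y z => by ext <;> simp <;> ring)
  (fun x => by ext <;> simp)
  (fun x => by ext <;> simp)
  (fun x y z => by ext <;> simp <;> ring)
  (fun x y z => by ext <;> simp <;> ring)

end R0

/-- weight of an exponent function -/
noncomputable def cost (e : (ℕ × ℕ) →₀ ℕ) : ℝ := e.sum (fun a k => (k : ℝ) / ((a.1 : ℝ) + 1))

lemma cost_zero : cost 0 = 0 := by simp [cost]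

lemma cost_add (e e' : (ℕ × ℕ) →₀ ℕ) : cost (e + e') = cost e + cost e' := by
  classical
  unfold cost
  rw [Finsupp.sum_add_index']
  · intro a; simp
  · intro a b b'; push_cast; ring

/-- the relation functional -/
def defect {G : Type u} (g h : G) (l : (ℕ × ℕ) →₀ (G → ZMod 2)) : ZMod 2 :=
  l.sum (fun _ f => f g + f h)

lemma defect_zero {G : Type u} (g h : G) : defect g h 0 = 0 := by simp [defect]

lemma defect_add {G : Type u} (g h : G) (l l' : (ℕ × ℕ) →₀ (G → ZMod 2)) :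
    defect g h (l + l') = defect g h l + defect g h l' := by
  classical
  unfold defect
  rw [Finsupp.sum_add_index']
  · intro a; simp
  · intro a b b'; simp only [Pi.add_apply]; ring

lemma defect_single {G : Type u} (g h : G) (a : ℕ × ℕ) (f : G → ZMod 2) :
    defect g h (Finsupp.single a f) = f g + f h := by
  classical
  unfold defect
  rw [Finsupp.sum_single_index]
  simp

section basis

variable {G : Type u} [Monoid G] (F : ℕ → Finset G) (g h : G)

/-- the basic neighbourhoods of zero -/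
def U (N : ℕ) : Set (R0 G) :=
  {x | x.c = 0 ∧ (∀ a : ℕ × ℕ, a.2 < N → x.v a = 0 ∧ x.w a = 0) ∧
    ∃ (e : (ℕ × ℕ) →₀ ℕ) (l : (ℕ × ℕ) →₀ (G → ZMod 2)), cost e ≤ (1 / 2) ^ N ∧
      defect g h l = 0 ∧ ∀ a, ((x.s a ≠ 0 ∨ x.p a ≠ 0 ∨ x.q a ≠ 0) → 1 ≤ e a) ∧
        rows (F a.1) (fun x' y' => x.z a x' y' + l a (x' * y')) ≤ 2 ^ (e a)}

lemma U_anti {N N' : ℕ} (hN : N ≤ N') : U F g h N' ⊆ U F g h N := by
  rintro x ⟨h1, h2, e, l, h3, h4, h5⟩
  refine ⟨h1, fun a ha => h2 a (lt_of_lt_of_le ha hN), e, l, h3.trans ?_, h4, h5⟩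
  exact pow_le_pow_of_le_one (by norm_num) (by norm_num) hN

lemma zero_mem_U (N : ℕ) : (0 : R0 G) ∈ U F g h N := by
  refine ⟨rfl, fun a _ => ⟨rfl, rfl⟩, 0, 0, ?_, defect_zero g h, fun a => ⟨by simp, ?_⟩⟩
  · rw [cost_zero]; positivity
  · refine (rows_le_one_of_zero _ _ (by simp)).trans (by simp)

lemma add_mem_U {N : ℕ} {x y : R0 G} (hx : x ∈ U F g h (N + 1)) (hy : y ∈ U F g h (N + 1)) :
    x + y ∈ U F g h N := by
  obtain ⟨h1, h2, e, l, h3, h4, h5⟩ := hx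
  obtain ⟨h1', h2', e', l', h3', h4', h5'⟩ := hy
  refine ⟨by simp [h1, h1'], fun a ha => ?_, e + e', l + l', ?_, ?_, fun a => ⟨?_, ?_⟩⟩
  · have := h2 a (by omega)
    have := h2' a (by omega)
    simp_all
  · rw [cost_add]
    have : ((1 : ℝ) / 2) ^ (N + 1) = (1 / 2) ^ N / 2 := by rw [pow_succ]; ring
    linarith
  · rw [defect_add, h4, h4', add_zero]
  · intro hne
    rw [Finsupp.add_apply]
    by_contra hlt
    have ha : ¬ 1 ≤ e a := by omega
    have ha' : ¬ 1 ≤ e' a := by omega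
    have hxa := mt (h5 a).1 ha
    have hya := mt (h5' a).1 ha'
    push Not at hxa hya
    simp [hxa.1, hxa.2.1, hxa.2.2, hya.1, hya.2.1, hya.2.2] at hne
  · rw [Finsupp.add_apply e e' a, pow_add]
    refine le_trans (le_of_eq ?_) ((rows_add _ _ _).trans (Nat.mul_le_mul (h5 a).2 (h5' a).2))
    congr 1
    funext x' y'
    simp only [R0.add_z, Pi.add_apply, Finsupp.add_apply]
    ring

lemma mul_mem_U {N : ℕ} {x y : R0 G} (hx : x ∈ U F g h (N + 1)) (hy : y ∈ U F g h (N + 1)) :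
    x * y ∈ U F g h N := by
  obtain ⟨h1, h2, e, l, h3, h4, h5⟩ := hx
  obtain ⟨h1', h2', e', l', h3', h4', h5'⟩ := hy
  refine ⟨by simp [h1, h1'], fun a ha => ?_, e' + e, 0, ?_, defect_zero g h, fun a => ⟨?_, ?_⟩⟩
  · constructor <;> funext t <;> simp [h1, h1']
  · rw [cost_add]
    have : ((1 : ℝ) / 2) ^ (N + 1) = (1 / 2) ^ N / 2 := by rw [pow_succ]; ring
    linarith
  · intro hne
    rw [Finsupp.add_apply]
    by_contra hlt
    have ha : ¬ 1 ≤ e a := by omega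
    have ha' : ¬ 1 ≤ e' a := by omega
    have hxa := mt (h5 a).1 ha
    have hya := mt (h5' a).1 ha'
    push Not at hxa hya
    rcases hne with hne | hne | hne
    · simp [h1, h1'] at hne
    · apply hne; funext t; simp [h1, h1', hya.1]
    · apply hne; funext t; simp [h1, h1', hxa.1]
  · rw [Finsupp.add_apply, pow_add]
    have hq : y.q a ≠ 0 → 1 ≤ e' a := fun hq => (h5' a).1 (Or.inr (Or.inr hq))
    have hp : x.p a ≠ 0 → 1 ≤ e a := fun hp => (h5 a).1 (Or.inr (Or.inl hp))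
    refine le_trans (le_of_eq ?_) ((rows_add _ _ _).trans
      (Nat.mul_le_mul (rows_outer (F a.1) (x.v a) (y.q a) (e' a) hq)
        (rows_outer' (F a.1) (x.p a) (y.w a) (e a) hp)))
    congr 1
    funext x' y'
    simp [h1, h1']

lemma exists_left_mul (x₀ : R0 G) (N : ℕ) : ∃ N', ∀ y ∈ U F g h N', x₀ * y ∈ U F g h N := by
  obtain ⟨H, hH⟩ := x₀.bdd
  refine ⟨max (N + 1) H, ?_⟩
  rintro y ⟨h1, h2, e, l, h3, h4, h5⟩
  have hz1 : ∀ a, x₀.s a = 0 ∨ y.w a = 0 := fun a => by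
    by_cases ha : a.2 < max (N + 1) H
    · exact Or.inr (h2 a ha).2
    · exact Or.inl (hH a (by omega)).1
  have hz2 : ∀ a, x₀.p a = 0 ∨ y.w a = 0 := fun a => by
    by_cases ha : a.2 < max (N + 1) H
    · exact Or.inr (h2 a ha).2
    · exact Or.inl (hH a (by omega)).2.1
  have hcost : cost (e + e) ≤ (1 / 2) ^ N := by
    rw [cost_add]
    have h6 : ((1 : ℝ) / 2) ^ (max (N + 1) H) ≤ (1 / 2) ^ (N + 1) :=
      pow_le_pow_of_le_one (by norm_num) (by norm_num) (le_max_left _ _)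
    have : ((1 : ℝ) / 2) ^ (N + 1) = (1 / 2) ^ N / 2 := by rw [pow_succ]; ring
    linarith
  have hvw : ∀ a : ℕ × ℕ, a.2 < N → (x₀ * y).v a = 0 ∧ (x₀ * y).w a = 0 := fun a ha => by
    obtain ⟨ha1, ha2⟩ := h2 a (lt_of_lt_of_le (Nat.lt_succ_of_lt ha) (le_max_left _ _))
    constructor <;> funext t <;> simp [ha1, ha2, h1]
  have hspq : ∀ a, ((x₀ * y).s a ≠ 0 ∨ (x₀ * y).p a ≠ 0 ∨ (x₀ * y).q a ≠ 0) → 1 ≤ e a := by
    intro a hne
    by_contra ha
    have hya := mt (h5 a).1 ha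
    push Not at hya
    rcases hne with hne | hne | hne
    · simp [h1, hya.1] at hne
    · apply hne; funext t; simp [h1, hya.1, hya.2.1]
    · apply hne
      funext t
      rcases hz1 a with hs | hw
      · simp [h1, hya.2.2, hs]
      · simp [h1, hya.2.2, hw]
  rcases zmod2_cases x₀.c with hc | hc
  · refine ⟨by simp [h1], hvw, e + e, 0, hcost, defect_zero g h, fun a => ⟨?_, ?_⟩⟩
    · intro hne
      have := hspq a hne
      rw [Finsupp.add_apply]; omega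
    · rw [Finsupp.add_apply]
      have hq : y.q a ≠ 0 → 1 ≤ e a := fun hq => (h5 a).1 (Or.inr (Or.inr hq))
      refine le_trans (le_of_eq ?_) ((rows_outer (F a.1) (x₀.v a) (y.q a) (e a) hq).trans
        (Nat.pow_le_pow_right (by norm_num) (Nat.le_add_left _ _)))
      congr 1
      funext x' y'
      rcases hz2 a with hp | hw
      · simp [h1, hc, hp]
      · simp [h1, hc, hw]
  · refine ⟨by simp [h1], hvw, e + e, l, hcost, h4, fun a => ⟨?_, ?_⟩⟩
    · intro hne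
      have := hspq a hne
      rw [Finsupp.add_apply]; omega
    · rw [Finsupp.add_apply, pow_add]
      have hq : y.q a ≠ 0 → 1 ≤ e a := fun hq => (h5 a).1 (Or.inr (Or.inr hq))
      refine le_trans (le_of_eq ?_) ((rows_add _ _ _).trans (Nat.mul_le_mul (h5 a).2
        (rows_outer (F a.1) (x₀.v a) (y.q a) (e a) hq)))
      congr 1
      funext x' y'
      rcases hz2 a with hp | hw
      · simp [h1, hc, hp]; ring
      · simp [h1, hc, hw]; ring

lemma exists_right_mul (x₀ : R0 G) (N : ℕ) : ∃ N', ∀ y ∈ U F g h N', y * x₀ ∈ U F g h N := by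
  obtain ⟨H, hH⟩ := x₀.bdd
  refine ⟨max (N + 1) H, ?_⟩
  rintro y ⟨h1, h2, e, l, h3, h4, h5⟩
  have hz1 : ∀ a, x₀.s a = 0 ∨ y.v a = 0 := fun a => by
    by_cases ha : a.2 < max (N + 1) H
    · exact Or.inr (h2 a ha).1
    · exact Or.inl (hH a (by omega)).1
  have hz2 : ∀ a, x₀.q a = 0 ∨ y.v a = 0 := fun a => by
    by_cases ha : a.2 < max (N + 1) H
    · exact Or.inr (h2 a ha).1
    · exact Or.inl (hH a (by omega)).2.2
  have hcost : cost (e + e) ≤ (1 / 2) ^ N := by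
    rw [cost_add]
    have h6 : ((1 : ℝ) / 2) ^ (max (N + 1) H) ≤ (1 / 2) ^ (N + 1) :=
      pow_le_pow_of_le_one (by norm_num) (by norm_num) (le_max_left _ _)
    have : ((1 : ℝ) / 2) ^ (N + 1) = (1 / 2) ^ N / 2 := by rw [pow_succ]; ring
    linarith
  have hvw : ∀ a : ℕ × ℕ, a.2 < N → (y * x₀).v a = 0 ∧ (y * x₀).w a = 0 := fun a ha => by
    obtain ⟨ha1, ha2⟩ := h2 a (lt_of_lt_of_le (Nat.lt_succ_of_lt ha) (le_max_left _ _))
    constructor <;> funext t <;> simp [ha1, ha2, h1]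
  have hspq : ∀ a, ((y * x₀).s a ≠ 0 ∨ (y * x₀).p a ≠ 0 ∨ (y * x₀).q a ≠ 0) → 1 ≤ e a := by
    intro a hne
    by_contra ha
    have hya := mt (h5 a).1 ha
    push Not at hya
    rcases hne with hne | hne | hne
    · simp [h1, hya.1] at hne
    · apply hne
      funext t
      rcases hz1 a with hs | hw
      · simp [h1, hya.2.1, hs]
      · simp [h1, hya.2.1, hw]
    · apply hne; funext t; simp [h1, hya.1, hya.2.2]
  rcases zmod2_cases x₀.c with hc | hc
  · refine ⟨by simp [h1], hvw, e + e, 0, hcost, defect_zero g h, fun a => ⟨?_, ?_⟩⟩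
    · intro hne
      have := hspq a hne
      rw [Finsupp.add_apply]; omega
    · rw [Finsupp.add_apply]
      have hp : y.p a ≠ 0 → 1 ≤ e a := fun hp => (h5 a).1 (Or.inr (Or.inl hp))
      refine le_trans (le_of_eq ?_) ((rows_outer' (F a.1) (y.p a) (x₀.w a) (e a) hp).trans
        (Nat.pow_le_pow_right (by norm_num) (Nat.le_add_left _ _)))
      congr 1
      funext x' y'
      rcases hz2 a with hp | hw
      · simp [h1, hc, hp]
      · simp [h1, hc, hw]
  · refine ⟨by simp [h1], hvw, e + e, l, hcost, h4, fun a => ⟨?_, ?_⟩⟩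
    · intro hne
      have := hspq a hne
      rw [Finsupp.add_apply]; omega
    · rw [Finsupp.add_apply, pow_add]
      have hp : y.p a ≠ 0 → 1 ≤ e a := fun hp => (h5 a).1 (Or.inr (Or.inl hp))
      refine le_trans (le_of_eq ?_) ((rows_add _ _ _).trans (Nat.mul_le_mul (h5 a).2
        (rows_outer' (F a.1) (y.p a) (x₀.w a) (e a) hp)))
      congr 1
      funext x' y'
      rcases hz2 a with hp | hw
      · simp [h1, hc, hp]; ring
      · simp [h1, hc, hw]; ring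

/-- the ring filter basis -/
@[reducible] def fb : RingFilterBasis (R0 G) where
  sets := Set.range (U F g h)
  nonempty := ⟨_, ⟨0, rfl⟩⟩
  inter_sets := by
    rintro _ _ ⟨N, rfl⟩ ⟨N', rfl⟩
    exact ⟨_, ⟨max N N', rfl⟩, Set.subset_inter (U_anti F g h (le_max_left _ _))
      (U_anti F g h (le_max_right _ _))⟩
  zero' := by
    rintro _ ⟨N, rfl⟩
    exact zero_mem_U F g h N
  add' := by
    rintro _ ⟨N, rfl⟩
    refine ⟨_, ⟨N + 1, rfl⟩, ?_⟩
    rintro _ ⟨x, hx, y, hy, rfl⟩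
    exact add_mem_U F g h hx hy
  neg' := by
    rintro _ ⟨N, rfl⟩
    exact ⟨_, ⟨N, rfl⟩, fun x hx => hx⟩
  conj' := by
    rintro x₀ _ ⟨N, rfl⟩
    refine ⟨_, ⟨N, rfl⟩, fun x hx => ?_⟩
    change x₀ + x + -x₀ ∈ U F g h N
    rwa [add_neg_cancel_comm]
  mul' := by
    rintro _ ⟨N, rfl⟩
    refine ⟨_, ⟨N + 1, rfl⟩, ?_⟩
    rintro _ ⟨x, hx, y, hy, rfl⟩
    exact mul_mem_U F g h hx hy
  mul_left' := by
    rintro x₀ _ ⟨N, rfl⟩
    obtain ⟨N', hN'⟩ := exists_left_mul F g h x₀ N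
    exact ⟨_, ⟨N', rfl⟩, hN'⟩
  mul_right' := by
    rintro x₀ _ ⟨N, rfl⟩
    obtain ⟨N', hN'⟩ := exists_right_mul F g h x₀ N
    exact ⟨_, ⟨N', rfl⟩, hN'⟩

end basis

end Pool.Agent.LibSGR
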